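import Mathlib
import Pool.Agent.H31.DPG

set_option autoImplicit false
open Pool.Agent.H31.DPG

namespace Pool.Agent.Results.MP_d3b86e_co.Finite

theorem result : ∀ k g : ℕ, ∃ (n : ℕ) (G : SimpleGraph (Fin n)), (g : ℕ∞) ≤ G.egirth ∧
    G.IsAcyclic ∧ ∃ t, Force k t (Fin n) G := by
  intro k g
  obtain ⟨n, G, h1, t, _, h2⟩ := main k
  exact ⟨n, G, by rw [SimpleGraph.egirth_eq_top.mpr h1]; exact le_top, h1, t, h2⟩

end Pool.Agent.Results.MP_d3b86e_co.Finite
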